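import Pool.Agent.H97.OC.Stmts

/-!
# Theorem OC: the rows with a pair of samples as context (row RWB)
-/

set_option autoImplicit false

namespace Pool.OC

open Finset Real
open Pool.Agent.H49.Ent Pool.Agent.H32.Dense Pool.STK Pool.KAF

namespace RWB

/-! ### Means of conditional probabilities -/

theorem Pr_eq {Ω : Type} [Fintype Ω] (p : Ω → ℝ) (E : Set Ω) :
    Pr p E = (open Classical in ∑ ω, if ω ∈ E then p ω else 0) := by
  classical
  unfold Pr law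
  refine Finset.sum_congr rfl fun ω _ => ?_
  by_cases h : ω ∈ E <;> simp [h]

theorem Pr_congr {Ω : Type} [Fintype Ω] {p : Ω → ℝ} (hp : ∀ ω, 0 ≤ p ω) {E E' : Set Ω}
    (h : ∀ ω, 0 < p ω → (ω ∈ E ↔ ω ∈ E')) : Pr p E = Pr p E' := by
  classical
  rw [Pr_eq, Pr_eq]
  refine Finset.sum_congr rfl fun ω _ => ?_
  rcases (hp ω).lt_or_eq with h1 | h1
  · by_cases h2 : ω ∈ E
    · rw [if_pos h2, if_pos ((h ω h1).1 h2)]
    · rw [if_neg h2, if_neg fun h3 => h2 ((h ω h1).2 h3)]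
  · rw [← h1]
    simp

theorem sum_glue_fst {Ω₁ Ω₂ ζ : Type} [Fintype Ω₁] [Fintype Ω₂] {q : Ω₁ → ℝ} {p : Ω₂ → ℝ}
    {Z₁ : Ω₁ → ζ} {Z₂ : Ω₂ → ζ} (hq : ∀ ω, 0 ≤ q ω) (hZ : ∀ z, law q Z₁ z = law p Z₂ z)
    (f : Ω₁ → ℝ) : ∑ w, glue q p Z₁ Z₂ w * f w.1 = ∑ v, q v * f v := by
  rw [Fintype.sum_prod_type]
  refine Finset.sum_congr rfl fun v _ => ?_
  show ∑ y, glue q p Z₁ Z₂ (v, y) * f v = q v * f v
  rw [← Finset.sum_mul, glue_fst hq hZ]

/-- The mean of a conditional probability is a probability for two copies. -/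
theorem ex_dbl {Ω₁ Ω₂ ζ κ κ' : Type} [Fintype Ω₁] [Fintype Ω₂] {q : Ω₁ → ℝ} {p : Ω₂ → ℝ}
    {Z₁ : Ω₁ → ζ} {Z₂ : Ω₂ → ζ} (hq : ∀ ω, 0 ≤ q ω) (hp : ∀ ω, 0 ≤ p ω)
    (hZ : ∀ z, law q Z₁ z = law p Z₂ z) (C : Ω₁ × Ω₂ → κ) (c : Ω₁ → κ')
    (hC : ∀ w w', 0 < glue q p Z₁ Z₂ w → 0 < glue q p Z₁ Z₂ w' → (C w = C w' ↔ c w.1 = c w'.1))
    (S : Set (Ω₁ × Ω₂)) (R : Ω₁ × Ω₂ → Ω₁ → Prop) :
    Ex (glue q p Z₁ Z₂) (Set.indicator S
      (fun w => Pr (cond q c (c w.1)) {v | R w v})) =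
      Pr (dbl (glue q p Z₁ Z₂) C) {z | z.1 ∈ S ∧ R z.1 z.2.1} := by
  classical
  obtain ⟨Q, hQ⟩ : ∃ Q, Q = glue q p Z₁ Z₂ := ⟨_, rfl⟩
  have hQ0 : ∀ w, 0 ≤ Q w := by rw [hQ]; exact glue_nonneg hq hp
  rw [← hQ] at hC ⊢
  -- the law of the label
  have hlaw : ∀ w, 0 < Q w → law Q C (C w) = law q c (c w.1) := by
    intro w hw
    have h1 : law q c (c w.1) = law Q (fun w' => c w'.1) (c w.1) := by
      rw [hQ]
      exact (law_glue_fst hq hZ c (c w.1)).symm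
    rw [h1]
    unfold law
    refine Finset.sum_congr rfl fun w' _ => ?_
    rcases (hQ0 w').lt_or_eq with h2 | h2
    · by_cases h3 : C w' = C w
      · rw [if_pos h3, if_pos ((hC w' w h2 hw).1 h3)]
      · rw [if_neg h3, if_neg fun h4 => h3 ((hC w' w h2 hw).2 h4)]
    · rw [← h2]
      simp
  rw [Pr_eq]
  unfold Ex
  have hprod : ∀ f : (Ω₁ × Ω₂) × (Ω₁ × Ω₂) → ℝ, ∑ z, f z = ∑ w, ∑ w', f (w, w') :=
    fun f => Fintype.sum_prod_type f
  rw [hprod]
  refine Finset.sum_congr rfl fun w _ => ?_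
  by_cases hS : w ∈ S
  swap
  · rw [Set.indicator_of_notMem hS, mul_zero]
    symm
    refine Finset.sum_eq_zero fun w' _ => ?_
    rw [if_neg]
    exact fun h => hS h.1
  rw [Set.indicator_of_mem hS]
  rcases (hQ0 w).lt_or_eq with hw | hw
  swap
  · rw [← hw, zero_mul]
    symm
    refine Finset.sum_eq_zero fun w' _ => ?_
    split_ifs
    · unfold dbl glue
      simp only [← hw]
      split_ifs <;> simp
    · rfl
  have hl := hlaw w hw
  -- the sum over the second copy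
  symm
  calc _ = ∑ w', Q w / law q c (c w.1) * (Q w' * (if c w'.1 = c w.1 ∧ R w w'.1 then 1 else 0)) := by
        refine Finset.sum_congr rfl fun w' _ => ?_
        have hmem : (w, w') ∈ {z : (Ω₁ × Ω₂) × Ω₁ × Ω₂ | z.1 ∈ S ∧ R z.1 z.2.1} ↔ R w w'.1 :=
          ⟨fun h => h.2, fun h => ⟨hS, h⟩⟩
        by_cases hR : R w w'.1
        swap
        · rw [if_neg fun h => hR (hmem.1 h), if_neg fun h => hR h.2]
          ring
        rw [if_pos (hmem.2 hR)]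
        have hd : dbl Q C (w, w') = if C w = C w' then Q w * Q w' / law Q C (C w) else 0 := rfl
        rw [hd, hl]
        rcases (hQ0 w').lt_or_eq with hw' | hw'
        · by_cases hc : c w'.1 = c w.1
          · rw [if_pos ((hC w w' hw hw').2 hc.symm), if_pos ⟨hc, hR⟩]
            ring
          · rw [if_neg fun h => hc ((hC w w' hw hw').1 h).symm, if_neg fun h => hc h.1]
            ring
        · rw [← hw']
          split_ifs <;> ring
    _ = Q w / law q c (c w.1) * ∑ v, q v * (if c v = c w.1 ∧ R w v then 1 else 0) := by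
        rw [← Finset.mul_sum]
        congr 1
        rw [hQ]
        exact sum_glue_fst hq hZ (fun v => if c v = c w.1 ∧ R w v then 1 else 0)
    _ = _ := ?_
  rw [Pr_eq]
  rw [div_mul_eq_mul_div, mul_div_assoc, Finset.sum_div]
  congr 1
  refine Finset.sum_congr rfl fun v _ => ?_
  unfold Pool.Agent.H49.Ent.cond
  by_cases hc : c v = c w.1
  · by_cases hR : R w v
    · have hmem : v ∈ {v | R w v} := hR
      rw [if_pos hmem, if_pos hc, if_pos ⟨hc, hR⟩]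
      ring
    · have hmem : v ∉ {v | R w v} := hR
      rw [if_neg hmem, if_neg fun h => hR h.2]
      ring
  · rw [if_neg hc, if_neg fun h => hc h.1]
    simp

/-! ### Information -/

/-- The information of the line in three times. -/
theorem mi_three {Om Lam Tau ζ : Type} [Fintype Om] {P : Om → ℝ} (hP : IsLaw P) (L : Om → Lam)
    (T : Om → Tau) (Z₀ Z : Om → ζ) (hZ0 : ∀ ω ω', Z₀ ω = Z₀ ω') (hZT : Det P T Z)
    (σ σ' : Om × Om → Om) (hσ : ∀ S : Type, ∀ f : Om → S, ∀ x,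
      law (dbl P (fun ω => (L ω, Z₀ ω))) (fun w => f (σ w)) x = law P f x)
    (hσ' : ∀ S : Type, ∀ f : Om → S,
      H (dbl P (fun ω => (L ω, Z₀ ω))) (fun w => f (σ' w)) = H P f)
    (hss : (∀ w : Om × Om, σ w = w.1 ∧ σ' w = w.2) ∨ ∀ w : Om × Om, σ w = w.2 ∧ σ' w = w.1) :
    Pool.KVA.MI (glue (dbl P (fun ω => (L ω, Z₀ ω))) P (fun w => (L (σ w), Z (σ w)))
      (fun ω => (L ω, Z ω))) (fun v => L (σ v.1)) (fun v => (T v.1.1, T v.1.2, T v.2))
      (fun _ => ()) ≤ 3 * Pool.KVA.MI P T L (fun _ => ()) := by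
  classical
  obtain ⟨q, hq⟩ : ∃ q, q = dbl P (fun ω => (L ω, Z₀ ω)) := ⟨_, rfl⟩
  rw [← hq] at hσ hσ' ⊢
  have hP0 := hP.nonneg
  have hq0 : ∀ w, 0 ≤ q w := by rw [hq]; exact glue_nonneg hP0 hP0
  have hqs : ∀ w, 0 < q w → 0 < P w.1 ∧ 0 < P w.2 ∧ L w.1 = L w.2 := by
    intro w hw
    rw [hq] at hw
    obtain ⟨h1, h2, h3⟩ := (glue_pos_iff hP0 hP0 w).1 hw
    exact ⟨h1, h2, congrArg Prod.fst h3⟩
  have hZ : ∀ z, law q (fun w => (L (σ w), Z (σ w))) z = law P (fun ω => (L ω, Z ω)) z :=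
    fun z => hσ _ (fun ω => (L ω, Z ω)) z
  obtain ⟨Q, hQ⟩ : ∃ Q, Q = glue q P (fun w => (L (σ w), Z (σ w))) (fun ω => (L ω, Z ω)) :=
    ⟨_, rfl⟩
  rw [← hQ]
  have hQ0 : ∀ w, 0 ≤ Q w := by rw [hQ]; exact glue_nonneg hq0 hP0
  have hq1 : ∑ w, q w = 1 := by rw [hq]; exact (sum_glue hP0 fun _ => rfl).trans hP.sum_one
  have hQ1 : ∑ w, Q w = 1 := by rw [hQ]; exact (sum_glue hq0 hZ).trans hq1
  have hQs : ∀ w, 0 < Q w → 0 < q w.1 ∧ 0 < P w.2 ∧ L (σ w.1) = L w.2 ∧ Z (σ w.1) = Z w.2 := by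
    intro w hw
    rw [hQ] at hw
    obtain ⟨h1, h2, h3⟩ := (glue_pos_iff hq0 hP0 w).1 hw
    exact ⟨h1, h2, congrArg Prod.fst h3, congrArg Prod.snd h3⟩
  have hσL : ∀ w, 0 < q w → L (σ w) = L w.1 := by
    intro w hw
    rcases hss with h | h
    · rw [(h w).1]
    · rw [(h w).1]; exact (hqs w hw).2.2.symm
  have hσP : ∀ w, 0 < q w → 0 < P (σ w) := by
    intro w hw
    rcases hss with h | h
    · rw [(h w).1]; exact (hqs w hw).1
    · rw [(h w).1]; exact (hqs w hw).2.1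
  -- entropies under `Q` of functions of one sample
  have m1 : ∀ {S : Type} (f : Om → S), H Q (fun w => f (σ w.1)) = H P f := by
    intro S f
    have e1 : H Q (fun w => f (σ w.1)) = H q (fun w => f (σ w)) := by
      rw [hQ]; exact H_glue_fst hq0 hZ (fun w => f (σ w))
    rw [e1]
    unfold H
    congr 1
    have e2 : ∀ w, law q (fun w => f (σ w)) (f (σ w)) = law P f (f (σ w)) := fun w => hσ S f _
    simp_rw [e2]
    -- the law of `σ w` is `P`
    have e3 : ∀ g : Om → ℝ, ∑ w, q w * g (σ w) = ∑ ω, P ω * g ω := by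
      intro g
      have e4 : ∀ ω, P ω = law q (fun w => σ w) ω := by
        intro ω
        rw [hσ Om (fun ω => ω) ω]
        unfold law
        simp
      simp_rw [e4]
      unfold law
      simp_rw [Finset.sum_mul]
      rw [Finset.sum_comm]
      refine Finset.sum_congr rfl fun w _ => ?_
      rw [Finset.sum_eq_single (σ w)]
      · simp
      · intro b _ hb
        rw [if_neg (Ne.symm hb)]
        ring
      · intro h
        exact absurd (Finset.mem_univ _) h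
    exact e3 fun ω => Real.log (law P f (f ω))
  have m2 : ∀ {S : Type} (f : Om → S), H Q (fun w => f w.2) = H P f := by
    intro S f
    rw [hQ]; exact H_glue_snd hP0 hZ f
  have m3 : ∀ {S : Type} (f : Om → S), H Q (fun w => f (σ' w.1)) = H P f := by
    intro S f
    have e1 : H Q (fun w => f (σ' w.1)) = H q (fun w => f (σ' w)) := by
      rw [hQ]; exact H_glue_fst hq0 hZ (fun w => f (σ' w))
    rw [e1]
    exact hσ' S f
  -- the entropy of the line and the three times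
  have j1 : H q (fun w => ((L w.1, T w.1), (L w.2, T w.2))) =
      H P (fun ω => (L ω, T ω)) + H P (fun ω => (L ω, T ω)) - H P (fun ω => (L ω, Z₀ ω)) := by
    rw [hq]
    refine H_glue_pair (X := fun ω => (L ω, T ω)) (Y := fun ω => (L ω, T ω)) hP0 hP0
      (fun _ => rfl) ?_ ?_
    · intro ω ω' _ _ h
      have h1 : L ω = L ω' := congrArg Prod.fst h
      exact Prod.ext h1 (hZ0 _ _)
    · intro ω ω' _ _ h
      have h1 : L ω = L ω' := congrArg Prod.fst h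
      exact Prod.ext h1 (hZ0 _ _)
  have j2 : H Q (fun w => (((L w.1.1, T w.1.1), (L w.1.2, T w.1.2)), (L w.2, T w.2))) =
      H q (fun w => ((L w.1, T w.1), (L w.2, T w.2))) + H P (fun ω => (L ω, T ω)) -
        H q (fun w => (L (σ w), Z (σ w))) := by
    rw [hQ]
    refine H_glue_pair (X := fun w : Om × Om => ((L w.1, T w.1), (L w.2, T w.2)))
      (Y := fun ω => (L ω, T ω)) hq0 hP0 hZ ?_ ?_
    · intro w w' hw hw' h
      have h1 : L w.1 = L w'.1 := congrArg (fun z => z.1.1) h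
      have h2 : T w.1 = T w'.1 := congrArg (fun z => z.1.2) h
      have h3 : T w.2 = T w'.2 := congrArg (fun z => z.2.2) h
      have h4 : L (σ w) = L (σ w') := by rw [hσL w hw, hσL w' hw', h1]
      refine Prod.ext h4 ?_
      refine hZT _ _ (hσP w hw) (hσP w' hw') ?_
      rcases hss with a | a
      · rw [(a w).1, (a w').1]; exact h2
      · rw [(a w).1, (a w').1]; exact h3
    · intro ω ω' hω hω' h
      have h1 : L ω = L ω' := congrArg Prod.fst h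
      exact Prod.ext h1 (hZT _ _ hω hω' (congrArg Prod.snd h))
  have j3 : H q (fun w => (L (σ w), Z (σ w))) = H P (fun ω => (L ω, Z ω)) := by
    have e1 : H q (fun w => (L (σ w), Z (σ w))) = H Q (fun w => (L (σ w.1), Z (σ w.1))) := by
      rw [hQ]; exact (H_glue_fst hq0 hZ (fun w => (L (σ w), Z (σ w)))).symm
    rw [e1]
    exact m1 fun ω => (L ω, Z ω)
  have j4 : H P (fun ω => (L ω, Z₀ ω)) = H P L :=
    le_antisymm (H_mono hP0 fun ω ω' _ _ h => Prod.ext h (hZ0 _ _))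
      (H_mono hP0 fun ω ω' _ _ h => congrArg Prod.fst h)
  have j5 : H Q (fun w => (((L w.1.1, T w.1.1), (L w.1.2, T w.1.2)), (L w.2, T w.2))) ≤
      H Q (fun v => (L (σ v.1), (T v.1.1, T v.1.2, T v.2))) := by
    refine H_mono hQ0 ?_
    intro w w' hw hw' h
    have h1 : L (σ w.1) = L (σ w'.1) := congrArg Prod.fst h
    have h2 : T w.1.1 = T w'.1.1 := congrArg (fun z => z.2.1) h
    have h3 : T w.1.2 = T w'.1.2 := congrArg (fun z => z.2.2.1) h
    have h4 : T w.2 = T w'.2 := congrArg (fun z => z.2.2.2) h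
    obtain ⟨a1, a2, a3, a4⟩ := hQs w hw
    obtain ⟨b1, b2, b3, b4⟩ := hQs w' hw'
    have c1 : L w.1.1 = L w'.1.1 := by rw [← hσL _ a1, ← hσL _ b1, h1]
    have c2 : L w.1.2 = L w'.1.2 := by rw [← (hqs _ a1).2.2, ← (hqs _ b1).2.2, c1]
    have c3 : L w.2 = L w'.2 := by rw [← a3, ← b3, h1]
    exact Prod.ext (Prod.ext (Prod.ext c1 h2) (Prod.ext c2 h3)) (Prod.ext c3 h4)
  -- the entropy of the three times
  have k1 : H Q (fun v => (T (σ v.1), T v.2)) + H P Z ≤ H P T + H P T := by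
    have e := submod hQ0 (X := fun v => T (σ v.1)) (Y := fun v => T v.2) (Z := fun v => Z v.2)
      (W := fun v => (T (σ v.1), T v.2)) ?_ ?_ fun w w' _ _ h => h
    · rw [m1 T, m2 T, m2 Z] at e
      exact e
    · intro w w' hw hw' h
      obtain ⟨a1, a2, a3, a4⟩ := hQs w hw
      obtain ⟨b1, b2, b3, b4⟩ := hQs w' hw'
      show Z w.2 = Z w'.2
      rw [← a4, ← b4]
      exact hZT _ _ (hσP _ a1) (hσP _ b1) h
    · intro w w' hw hw' h
      exact hZT _ _ (hQs w hw).2.1 (hQs w' hw').2.1 h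
  have k2 : H Q (fun v => (T v.1.1, T v.1.2, T v.2)) ≤
      H P T + H Q (fun v => (T (σ v.1), T v.2)) := by
    have e := subadd hQ0 hQ1 (X := fun v => T (σ' v.1)) (Y := fun v => (T (σ v.1), T v.2))
      (W := fun v => (T v.1.1, T v.1.2, T v.2)) ?_
    · rw [m3 T] at e
      exact e
    · intro w w' _ _ h
      have h1 : T (σ' w.1) = T (σ' w'.1) := congrArg Prod.fst h
      have h2 : T (σ w.1) = T (σ w'.1) := congrArg (fun z => z.2.1) h
      have h3 : T w.2 = T w'.2 := congrArg (fun z => z.2.2) h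
      rcases hss with a | a
      · rw [(a _).1, (a _).1] at h2
        rw [(a _).2, (a _).2] at h1
        exact Prod.ext h2 (Prod.ext h1 h3)
      · rw [(a _).1, (a _).1] at h2
        rw [(a _).2, (a _).2] at h1
        exact Prod.ext h1 (Prod.ext h2 h3)
  have k3 : H P (fun ω => (L ω, Z ω)) ≤ H P L + H P Z :=
    subadd hP0 hP.sum_one fun ω ω' _ _ h => h
  -- conclusion
  have hunit : ∀ {Ω S : Type} [Fintype Ω] {p : Ω → ℝ} (f : Ω → S), (∀ ω, 0 ≤ p ω) →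
      ∑ ω, p ω = 1 → CH p f (fun _ => ()) = H p f := by
    intro Ω S _ p f h1 h2
    unfold CH
    rw [H_const h2]
    have : H p (fun ω => (f ω, ())) = H p f :=
      le_antisymm (H_mono h1 fun ω ω' _ _ h => Prod.ext h rfl)
        (H_mono h1 fun ω ω' _ _ h => congrArg Prod.fst h)
    rw [this, sub_zero]
  unfold Pool.KVA.MI
  rw [hunit _ hQ0 hQ1, hunit _ hQ0 hQ1, hunit _ hQ0 hQ1, hunit _ hP0 hP.sum_one,
    hunit _ hP0 hP.sum_one, hunit _ hP0 hP.sum_one]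
  have k4 : H P (fun ω => (T ω, L ω)) = H P (fun ω => (L ω, T ω)) :=
    le_antisymm (H_mono hP0 fun ω ω' _ _ h => Prod.ext (congrArg Prod.snd h) (congrArg Prod.fst h))
      (H_mono hP0 fun ω ω' _ _ h => Prod.ext (congrArg Prod.snd h) (congrArg Prod.fst h))
  have k5 := m1 L
  rw [k5, k4]
  linarith

/-! ### Cells -/

theorem floor_half (z : ℝ) : ⌊z⌋ = ⌊2 * z⌋ / 2 := by
  have h := Int.floor_div_natCast (2 * z) 2
  push_cast at h
  rw [← h]
  congr 1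
  ring

/-- The last binary digit. -/
noncomputable def bit (z : ℤ) : Bool := decide (z % 2 = 1)

theorem of_bit {a b : ℤ} (h : a / 2 = b / 2) (hb : bit a = bit b) : a = b := by
  unfold bit at hb
  have h1 : (a % 2 = 1) ↔ (b % 2 = 1) := by
    constructor
    · intro h2
      rw [decide_eq_true h2] at hb
      exact of_decide_eq_true hb.symm
    · intro h2
      rw [decide_eq_true h2] at hb
      exact of_decide_eq_true hb
  omega

theorem floor_z (x : ℝ) (k : ℤ) : ⌊(2 : ℝ) ^ k * x⌋ = ⌊(2 : ℝ) ^ (k + 1) * x⌋ / 2 := by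
  rw [floor_half]
  congr 2
  rw [zpow_add₀ (by norm_num : (2 : ℝ) ≠ 0), zpow_one]
  ring

theorem floor_n (x : ℝ) (k : ℕ) : ⌊(2 : ℝ) ^ k * x⌋ = ⌊(2 : ℝ) ^ (k + 1) * x⌋ / 2 := by
  rw [floor_half]
  congr 2
  rw [pow_succ]
  ring

variable {d : Dat}

/-- The digits of the children of the cells of stage B. -/
noncomputable def dB (d : Dat) (m : d.Lam → ℤ) (s : ℕ) (t : d.Tau) (a : ℤ) (l : d.Lam) :
    Bool × Bool × Bool :=
  (bit ⌊(2 : ℝ) ^ (((s + 1 : ℕ) : ℤ) - a) * d.omR l⌋,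
    bit ⌊(2 : ℝ) ^ (s + 1) * (d.yR l + d.th t * d.omR l)⌋,
    bit ⌊(2 : ℝ) ^ (((s + 1 : ℕ) : ℤ) + m l) * (d.beR l - d.S t * d.omR l)⌋)

theorem GB_succ (m : d.Lam → ℤ) (s : ℕ) {t t' : d.Tau} {a a' : ℤ} {l l' : d.Lam} :
    (d.GB m s t a l = d.GB m s t' a' l' ∧ dB d m s t a l = dB d m s t' a' l') ↔
      d.GB m (s + 1) t a l = d.GB m (s + 1) t' a' l' := by
  have e1 : ∀ (b : ℤ) (z : ℝ), ⌊(2 : ℝ) ^ ((s : ℤ) + b) * z⌋ =
      ⌊(2 : ℝ) ^ (((s + 1 : ℕ) : ℤ) + b) * z⌋ / 2 := by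
    intro b z
    rw [floor_z]
    congr 3
    push_cast
    congr 1
    ring
  have e2 : ∀ (b : ℤ) (z : ℝ), ⌊(2 : ℝ) ^ ((s : ℤ) - b) * z⌋ =
      ⌊(2 : ℝ) ^ (((s + 1 : ℕ) : ℤ) - b) * z⌋ / 2 := by
    intro b z
    have := e1 (-b) z
    simpa [sub_eq_add_neg] using this
  have e3 : ∀ z : ℝ, ⌊(2 : ℝ) ^ s * z⌋ = ⌊(2 : ℝ) ^ (s + 1) * z⌋ / 2 := fun z => floor_n z s
  unfold Dat.GB dB
  simp only [Prod.mk.injEq]
  rw [e1, e2, e3, e1, e2, e3]
  constructor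
  · rintro ⟨⟨h1, h2, h3, h4⟩, h5, h6, h7⟩
    exact ⟨h1, of_bit h2 h5, of_bit h3 h6, of_bit h4 h7⟩
  · rintro ⟨h1, h2, h3, h4⟩
    rw [h2, h3, h4]
    exact ⟨⟨h1, rfl, rfl, rfl⟩, rfl, rfl, rfl⟩

/-- The cell is a function of the times, the label and the digits of the line. -/
theorem GB_congr (m : d.Lam → ℤ) (s : ℕ) (t : d.Tau) (a : ℤ) {l l' : d.Lam} (hm : m l = m l')
    (hV : d.V l = d.V l') : d.GB m s t a l = d.GB m s t a l' := by
  have h1 : d.y l = d.y l' := congrArg Prod.fst hV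
  have h2 : d.om l = d.om l' := congrArg (fun z => z.2.1) hV
  have h3 : d.be l = d.be l' := congrArg (fun z => z.2.2) hV
  unfold Dat.GB Dat.omR Dat.yR Dat.beR
  rw [hm, h1, h2, h3]

/-! ### The rows -/

theorem Ti_zero {A : ℕ} (hd : d.OK A) (ω ω' : d.Om) : d.Ti 0 ω = d.Ti 0 ω' := by
  have h : ∀ ω, d.Ti 0 ω = 0 := by
    intro ω
    unfold Dat.Ti
    have := hd.hth (d.T ω)
    rw [pow_zero, one_mul]
    exact Int.floor_eq_zero_iff.2 ⟨this.1, this.2⟩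
  rw [h, h]

theorem core {A : ℕ} {J : d.Om → Set ℕ} {m : d.Lam → ℤ} {n k k₁ : ℕ} {e δ ι : ℝ} (hd : d.OK A)
    (h1 : d.H1 ι) (hι : 3 * ι ≤ δ) (hm : H d.P (fun ω => m (d.L ω)) ≤ δ * d.X)
    (hR : RowOK d J k k₁ e δ) (σ σ' : d.Om × d.Om → d.Om)
    (hss : (∀ w : d.Om × d.Om, σ w = w.1 ∧ σ' w = w.2) ∨ ∀ w : d.Om × d.Om, σ w = w.2 ∧ σ' w = w.1)
    (i : ℕ) (q : ℤ → d.Tau → d.Tau → d.Tau → ℤ) (W : Set (ℤ × d.Tau × d.Tau × d.Tau))
    (Q : (d.Om × d.Om) × d.Om → ℝ)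
    (hQ : Q = glue (d.Qp 0) d.P (fun w => (d.L (σ w), d.Ti i (σ w)))
      (fun ω => (d.L ω, d.Ti i ω)))
    (hcl : ∀ w v s, 0 < Q w → 0 < d.Qp 0 v →
      (m (d.L w.1.1), d.T w.1.1, d.T w.1.2, d.T w.2) ∈ W → 8 * n ≤ s →
      d.LB m s v = d.LB m s w.1 →
      |d.ZR (d.T (σ w.1)) (d.T w.2) (d.L w.1.1) - d.ZR (d.T (σ w.1)) (d.T w.2) (d.L v.1)| ≤
        (2 : ℝ) ^ ((k : ℤ) - (s + q (m (d.L w.1.1)) (d.T w.1.1) (d.T w.1.2) (d.T w.2)))) :
    ∑ s ∈ Finset.Ico (8 * n) (d.X - 8 * n), Ex Q (Set.indicator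
      {w | (m (d.L w.1.1), d.T w.1.1, d.T w.1.2, d.T w.2) ∈ W ∧
        0 ≤ (s : ℤ) + q (m (d.L w.1.1)) (d.T w.1.1) (d.T w.1.2) (d.T w.2) ∧
        ((s : ℤ) + q (m (d.L w.1.1)) (d.T w.1.1) (d.T w.1.2) (d.T w.2)).toNat ∈ J (σ w.1)}
      (fun w => Pr (cond (d.Qp 0) (d.LB m s) (d.LB m s w.1))
        {v | (2 : ℝ) ^ (-((s : ℤ) + q (m (d.L w.1.1)) (d.T w.1.1) (d.T w.1.2) (d.T w.2) + k₁)) ≤
          |d.ZR (d.T (σ w.1)) (d.T w.2) (d.L w.1.1) -
            d.ZR (d.T (σ w.1)) (d.T w.2) (d.L v.1)|})) ≤ e * d.X := by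
  classical
  have hP := hd.law
  have hP0 := hP.nonneg
  have hq : d.Qp 0 = dbl d.P (fun ω => (d.L ω, d.Ti 0 ω)) := rfl
  have hq0 : ∀ w, 0 ≤ d.Qp 0 w := by rw [hq]; exact glue_nonneg hP0 hP0
  have hqs : ∀ w, 0 < d.Qp 0 w → 0 < d.P w.1 ∧ 0 < d.P w.2 ∧ d.L w.1 = d.L w.2 := by
    intro w hw
    rw [hq] at hw
    obtain ⟨a1, a2, a3⟩ := (glue_pos_iff hP0 hP0 w).1 hw
    exact ⟨a1, a2, congrArg Prod.fst a3⟩
  have hσ : ∀ (S : Type) (f : d.Om → S) (x : S),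
      law (d.Qp 0) (fun w => f (σ w)) x = law d.P f x := by
    intro S f x
    rcases hss with a | a
    · have e1 : (fun w => f (σ w)) = fun w : d.Om × d.Om => f w.1 := by
        funext w; rw [(a w).1]
      rw [e1, hq]
      exact law_glue_fst hP0 (fun _ => rfl) f x
    · have e1 : (fun w => f (σ w)) = fun w : d.Om × d.Om => f w.2 := by
        funext w; rw [(a w).1]
      rw [e1, hq]
      exact law_glue_snd hP0 (fun _ => rfl) f x
  have hσ' : ∀ (S : Type) (f : d.Om → S), H (d.Qp 0) (fun w => f (σ' w)) = H d.P f := by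
    intro S f
    rcases hss with a | a
    · have e1 : (fun w => f (σ' w)) = fun w : d.Om × d.Om => f w.2 := by
        funext w; rw [(a w).2]
      rw [e1, hq]
      exact H_glue_snd hP0 (fun _ => rfl) f
    · have e1 : (fun w => f (σ' w)) = fun w : d.Om × d.Om => f w.1 := by
        funext w; rw [(a w).2]
      rw [e1, hq]
      exact H_glue_fst hP0 (fun _ => rfl) f
  have hZ : ∀ z, law (d.Qp 0) (fun w => (d.L (σ w), d.Ti i (σ w))) z =
      law d.P (fun ω => (d.L ω, d.Ti i ω)) z := fun z => hσ _ (fun ω => (d.L ω, d.Ti i ω)) z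
  have hQ0 : ∀ w, 0 ≤ Q w := by rw [hQ]; exact glue_nonneg hq0 hP0
  have hq1 : ∑ w, d.Qp 0 w = 1 := by rw [hq]; exact (sum_glue hP0 fun _ => rfl).trans hP.sum_one
  have hQ1 : ∑ w, Q w = 1 := by rw [hQ]; exact (sum_glue hq0 hZ).trans hq1
  have hQs : ∀ w, 0 < Q w → 0 < d.Qp 0 w.1 ∧ 0 < d.P w.2 ∧ d.L (σ w.1) = d.L w.2 := by
    intro w hw
    rw [hQ] at hw
    obtain ⟨a1, a2, a3⟩ := (glue_pos_iff hq0 hP0 w).1 hw
    exact ⟨a1, a2, congrArg Prod.fst a3⟩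
  have hσL : ∀ w, 0 < d.Qp 0 w → d.L (σ w) = d.L w.1 := by
    intro w hw
    rcases hss with h | h
    · rw [(h w).1]
    · rw [(h w).1]; exact (hqs w hw).2.2.symm
  have hTσ : ∀ w w' : d.Om × d.Om, d.T w.1 = d.T w'.1 → d.T w.2 = d.T w'.2 →
      d.T (σ w) = d.T (σ w') := by
    intro w w' a1 a2
    rcases hss with h | h
    · rw [(h w).1, (h w').1]; exact a1
    · rw [(h w).1, (h w').1]; exact a2
  -- the information
  have hMI : Pool.KVA.MI Q (fun v => d.L (σ v.1)) (fun v => (d.T v.1.1, d.T v.1.2, d.T v.2))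
      (fun _ => ()) ≤ δ * d.X := by
    have e1 := mi_three hP d.L d.T (d.Ti 0) (d.Ti i) (Ti_zero hd) (fun ω ω' _ _ h => by
      unfold Dat.Ti; rw [h]) σ σ' (fun S f x => hσ S f x) (fun S f => hσ' S f) hss
    rw [← hq, ← hQ] at e1
    have e2 := h1.1
    have e3 : (0 : ℝ) ≤ d.X := Nat.cast_nonneg _
    have e4 := mul_le_mul_of_nonneg_right hι e3
    linarith
  have hmH : H Q (fun v => m (d.L (σ v.1))) ≤ δ * d.X := by
    have e1 : H Q (fun v => m (d.L (σ v.1))) = H d.P (fun ω => m (d.L ω)) := by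
      have e2 : H Q (fun v => m (d.L (σ v.1))) = H Q (fun v => m (d.L v.2)) := by
        refine le_antisymm (H_mono hQ0 fun w w' hw hw' h => ?_)
          (H_mono hQ0 fun w w' hw hw' h => ?_)
        · show m (d.L (σ w.1)) = m (d.L (σ w'.1))
          rw [(hQs w hw).2.2, (hQs w' hw').2.2]
          exact h
        · show m (d.L w.2) = m (d.L w'.2)
          rw [← (hQs w hw).2.2, ← (hQs w' hw').2.2]
          exact h
      rw [e2, hQ]
      exact H_glue_snd hP0 hZ (fun ω => m (d.L ω))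
    rw [e1]
    exact hm
  have key := hR ((d.Om × d.Om) × d.Om) (d.Tau × d.Tau) (d.Tau × d.Tau × d.Tau) ℤ
    (fun _ => ℤ × ℤ × ℤ × ℤ) Q (fun w => σ w.1) (fun w => w.2)
    (fun w => (d.T w.1.1, d.T w.1.2)) (fun w => (d.T w.1.1, d.T w.1.2, d.T w.2)) m
    (fun s w => d.GB m s (d.T w.1.1) (sc (d.ta w.1)) (d.L (σ w.1)))
    (fun s w => dB d m s (d.T w.1.1) (sc (d.ta w.1)) (d.L (σ w.1)))
    (fun w => q (m (d.L w.1.1)) (d.T w.1.1) (d.T w.1.2) (d.T w.2))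
    {w | (m (d.L w.1.1), d.T w.1.1, d.T w.1.2, d.T w.2) ∈ W} (8 * n) (d.X - 8 * n)
    ⟨hQ0, hQ1⟩ ?_ ?_ ?_ ?_ hMI hmH ?_ ?_ ?_ ?_ ?_ ?_ (Nat.sub_le _ _)
  · -- conversion
    refine le_trans (le_of_eq ?_) key
    refine Finset.sum_congr rfl fun s _ => ?_
    rw [hQ]
    rw [ex_dbl hq0 hP0 hZ
      (fun w => (((d.T w.1.1, d.T w.1.2) : d.Tau × d.Tau), m (d.L (σ w.1)),
        d.GB m s (d.T w.1.1) (sc (d.ta w.1)) (d.L (σ w.1)))) (d.LB m s) ?_ _
      (fun w v => (2 : ℝ) ^ (-((s : ℤ) +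
          q (m (d.L w.1.1)) (d.T w.1.1) (d.T w.1.2) (d.T w.2) + k₁)) ≤
          |d.ZR (d.T (σ w.1)) (d.T w.2) (d.L w.1.1) -
            d.ZR (d.T (σ w.1)) (d.T w.2) (d.L v.1)|)]
    · rw [← hQ]
      refine Pr_congr (glue_nonneg hQ0 hQ0) fun z hz => ?_
      obtain ⟨b1, b2, -⟩ := (glue_pos_iff hQ0 hQ0 z).1 hz
      have c1 := hσL _ (hQs _ b1).1
      have c2 := hσL _ (hQs _ b2).1
      simp only [Set.mem_ofPred_eq]
      rw [c1, c2]
      tauto
    · intro w w' hw hw'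
      rw [← hQ] at hw hw'
      have c1 := hσL _ (hQs _ hw).1
      have c2 := hσL _ (hQs _ hw').1
      unfold Dat.LB
      simp only [Prod.mk.injEq]
      rw [c1, c2]
      constructor
      · rintro ⟨⟨a1, a2⟩, a3, a4⟩
        exact ⟨a1, a2, a4⟩
      · rintro ⟨a1, a2, a4⟩
        refine ⟨⟨a1, a2⟩, ?_, a4⟩
        exact congrArg Prod.fst a4
  · intro ω
    have e1 : law Q (fun w => σ w.1) ω = law (d.Qp 0) (fun w => σ w) ω := by
      rw [hQ]
      exact law_glue_fst hq0 hZ (fun w => σ w) ω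
    rw [e1, hσ d.Om (fun ω => ω) ω]
    unfold law
    simp
  · intro ω
    have e1 : law Q (fun w => w.2) ω = law d.P (fun ω => ω) ω := by
      rw [hQ]
      exact law_glue_snd hP0 hZ (fun ω => ω) ω
    rw [e1]
    unfold law
    simp
  · intro v hv
    exact (hQs v hv).2.2.symm
  · intro w w' _ _ h
    have a1 : d.T w.1.1 = d.T w'.1.1 := congrArg Prod.fst h
    have a2 : d.T w.1.2 = d.T w'.1.2 := congrArg (fun z => z.2.1) h
    have a3 : d.T w.2 = d.T w'.2 := congrArg (fun z => z.2.2) h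
    exact Prod.ext (Prod.ext a1 a2) (Prod.ext (hTσ _ _ a1 a2) a3)
  · intro s _ w w' _ _ h
    have a1 : d.T w.1.1 = d.T w'.1.1 := congrArg (fun z => z.1.1) h
    have a2 : d.T w.1.2 = d.T w'.1.2 := congrArg (fun z => z.1.2) h
    have a3 : m (d.L (σ w.1)) = m (d.L (σ w'.1)) := congrArg (fun z => z.2.1) h
    have a4 : d.V (d.L (σ w.1)) = d.V (d.L (σ w'.1)) := congrArg (fun z => z.2.2) h
    have a5 : d.ta w.1 = d.ta w'.1 := by unfold Dat.ta; rw [a1, a2]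
    show d.GB m s (d.T w.1.1) (sc (d.ta w.1)) (d.L (σ w.1)) =
      d.GB m s (d.T w'.1.1) (sc (d.ta w'.1)) (d.L (σ w'.1))
    rw [a1, a5]
    exact GB_congr m s _ _ a3 a4
  · intro s _ w w' _ _ h
    exact (GB_succ m s).1 ⟨congrArg Prod.fst h, congrArg Prod.snd h⟩
  · intro s _ w w' _ _ h
    have := (GB_succ m s).2 h
    exact Prod.ext this.1 this.2
  · intro w w' hw hw' h
    have a1 : d.T w.1.1 = d.T w'.1.1 := congrArg (fun z => z.1.1) h
    have a2 : d.T w.1.2 = d.T w'.1.2 := congrArg (fun z => z.1.2.1) h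
    have a3 : d.T w.2 = d.T w'.2 := congrArg (fun z => z.1.2.2) h
    have a4 : m (d.L (σ w.1)) = m (d.L (σ w'.1)) := congrArg (fun z => z.2) h
    rw [hσL _ (hQs _ hw).1, hσL _ (hQs _ hw').1] at a4
    show q (m (d.L w.1.1)) (d.T w.1.1) (d.T w.1.2) (d.T w.2) =
      q (m (d.L w'.1.1)) (d.T w'.1.1) (d.T w'.1.2) (d.T w'.2)
    rw [a1, a2, a3, a4]
  · intro w w' hw hw' h
    have a1 : d.T w.1.1 = d.T w'.1.1 := congrArg (fun z => z.1.1) h
    have a2 : d.T w.1.2 = d.T w'.1.2 := congrArg (fun z => z.1.2.1) h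
    have a3 : d.T w.2 = d.T w'.2 := congrArg (fun z => z.1.2.2) h
    have a4 : m (d.L (σ w.1)) = m (d.L (σ w'.1)) := congrArg (fun z => z.2) h
    rw [hσL _ (hQs _ hw).1, hσL _ (hQs _ hw').1] at a4
    show ((m (d.L w.1.1), d.T w.1.1, d.T w.1.2, d.T w.2) ∈ W) =
      ((m (d.L w'.1.1), d.T w'.1.1, d.T w'.1.2, d.T w'.2) ∈ W)
    rw [a1, a2, a3, a4]
  · intro s w w' hs hw hw' hW hx hmm hG
    have c1 := hσL _ (hQs _ hw).1
    have c2 := hσL _ (hQs _ hw').1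
    have a1 : d.T w.1.1 = d.T w'.1.1 := congrArg Prod.fst hx
    have a2 : d.T w.1.2 = d.T w'.1.2 := congrArg Prod.snd hx
    have hG' : d.GB m s (d.T w.1.1) (sc (d.ta w.1)) (d.L (σ w.1)) =
      d.GB m s (d.T w'.1.1) (sc (d.ta w'.1)) (d.L (σ w'.1)) := hG
    rw [c1, c2] at hG'
    have h3 := hcl w w'.1 s hw (hQs _ hw').1 hW hs (by
      unfold Dat.LB
      rw [a1, a2] at *
      rw [hG'])
    show |d.ZR (d.T (σ w.1)) (d.T w.2) (d.L (σ w.1)) -
      d.ZR (d.T (σ w.1)) (d.T w.2) (d.L (σ w'.1))| ≤ _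
    rw [c1, c2]
    exact h3

end RWB

/-- **RWB.** -/
theorem rwb : RWBStmt := by
  intro d A J m n k k₁ e δ ι hd h1 hι hm hR
  constructor
  · intro i _ q W hcl
    exact RWB.core hd h1 hι hm hR (fun w => w.1) (fun w => w.2) (Or.inl fun w => ⟨rfl, rfl⟩) i q W
      (d.Q3 i) rfl hcl
  · intro i _ q W hcl
    exact RWB.core hd h1 hι hm hR (fun w => w.2) (fun w => w.1) (Or.inr fun w => ⟨rfl, rfl⟩) i q W
      (d.Q3' i) rfl hcl

end Pool.OC
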